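import Pool.Agent.X193.CubeMix.Main

namespace Pool.Agent.Results.MP_067019_co.CubeWithTriangle

open X193.CMT X193.CubeMix

/-- There is a finite connected non-bipartite graph `G` (on 11 vertices) whose circular mixing
threshold is `4` and is not attained: `G` is `(k, q)`-mixing whenever `k / q > 4`, and not
`(4, 1)`-mixing. -/
theorem result : ∃ (V : Type) (_ : Fintype V) (G : SimpleGraph V),
    Fintype.card V = 11 ∧ G.Connected ∧ ¬ G.Colorable 2 ∧
    (∀ k q : ℕ, 0 < q → 4 * q < k → Mixing G k q) ∧ ¬ Mixing G 4 1 ∧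
    IsGLB (Good G) 4 ∧ (4 : ℝ) ∉ Good G ∧ ¬ ∃ x, IsLeast (Good G) x :=
  ⟨_, inferInstance, Gr, by simp, gr_connected, gr_not_bipartite,
    fun _ _ hq hk => gr_mixing hq hk, gr_not_mixing, gr_glb, gr_not_attained, by
      rintro ⟨x, hx⟩
      have h := hx.isGLB.unique gr_glb
      exact gr_not_attained (h ▸ hx.1)⟩

end Pool.Agent.Results.MP_067019_co.CubeWithTriangle
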